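import Pool.Agent.H821.BL.Loc

/-!
# Implosions of the Boltzmann equation with hard potentials: a criterion on the collision frequency

Non-cutoff Boltzmann equation on the torus, kernels `|v - v_*|^γ b(cos θ)` with `0 ≤ γ < 2`,
`0 < s < 1`, any dimension `d ≥ 2`.

Let `p ≥ γ + 2s`, and let `ρ ≤ r(t)` and `∫ f |v|^p dv ≤ r(t) m(t)^p`, where `r` is any function
bounded below by a positive constant `c`, and `m ≥ 1` is continuous and nondecreasing (a bound of the
velocity scale).  If `∫_0^T r m^(γ+g) dt < ∞` for some `g > 0`, or for `g = 0` if `r ≥ c m^d`, then all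
weighted sup norms of the solution stay bounded on `[0,T)`.  For `g = 0` the integral is the time
integral of the maximal collision frequency `ρ m^γ`.  If `γ + 2s ≤ 2`, one can take `p = 2` (the
energy).  The criterion is also proved in localised form, near an implosion point; in this form it is
assumed, if `γ + 2s > 2`, that the moment of order `p` is bounded away from the point.

Example (`p = 2`).  Let `ρ ≤ A (T-t)^(-α)`, `E ≤ A (T-t)^(-β)` with `0 ≤ α < 1` and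
`(1 - γ/2) α + (γ/2) β < 1`.  For `β ≥ α` take `r = A' (T-t)^(-α)`, `m = max(1, (T-t)^(-(β-α)/2))`;
then `r m^(γ+g)` is integrable for small `g`, as `α + (β-α)(γ+g)/2 < 1`.

Idea.  The barrier is `N(t) (1 + |v|²/μ(t)²)^(-n)` with a moving scale `μ = m^ε`.  At a touching
point the collision operator is at most `C μ^γ (ρ + μ^(-p) ∫ f |v|^p)` times the barrier (a
Povzner-type estimate combined with the cancellation lemma, for kernels with the singularity
`s < 1`).  For `g > 0`, a bound at scale `m^ε` with a large power `n` gives back a better bound of the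
moment, and the exponent `ε` is decreased step by step until `μ = 1` is admissible.  For `g = 0`, the
bound at scale `m` and the minimal rate of blow-up at a fixed scale are combined: as `r ≥ c m^d`,
`m(t)^(d+γ) (T-t)` is small at some time `t`.
-/

set_option autoImplicit false
open MeasureTheory Metric Set Filter Topology
open scoped ENNReal Real InnerProductSpace

namespace Pool.Agent.Results.MP_187b32_an.HardCollisionFrequency

/-- the space of positions and of velocities -/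
abbrev E (d : ℕ) := EuclideanSpace ℝ (Fin d)

/-- the unit sphere -/
abbrev S (d : ℕ) := sphere (0 : E d) 1

/-- the surface measure of the unit sphere -/
noncomputable abbrev surf (d : ℕ) : Measure (S d) := (volume : Measure (E d)).toSphere

/-- the velocity `v'` after the collision -/
noncomputable def post {d : ℕ} (v w σ : E d) : E d := (1/2:ℝ) • (v + w) + (‖v - w‖ / 2) • σ

/-- the velocity `v'_*` after the collision -/
noncomputable def postStar {d : ℕ} (v w σ : E d) : E d := (1/2:ℝ) • (v + w) - (‖v - w‖ / 2) • σ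

/-- the cosine of the deviation angle, `(v' - v'_*) · (v - v_*) / |v - v_*|²` -/
noncomputable def cosTheta {d : ℕ} (v w σ : E d) : ℝ :=
  ⟪post v w σ - postStar v w σ, v - w⟫_ℝ / ‖v - w‖ ^ 2

/-- the collision operator `Q(g,g)(v)` for the kernel `|v - v_*|^γ b(cos θ)`, where the collisions
with `cos θ > 1 - ε` are removed -/
noncomputable def cutQ {d : ℕ} (γ : ℝ) (b : ℝ → ℝ) (ε : ℝ) (g : E d → ℝ) (v : E d) : ℝ :=
  ∫ w : E d, ∫ σ : S d, (if cosTheta v w σ ≤ 1 - ε then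
    (g (postStar v w σ) * g (post v w σ) - g w * g v) * (‖v - w‖ ^ γ * b (cosTheta v w σ)) else 0) ∂(surf d)

/-- the angular part of the kernel: `0 ≤ b(cos θ) ≤ K |sin (θ/2)|^(-(d-1)-2s)`;
note that `sin² (θ/2) = (1 - cos θ)/2` -/
structure Angular (d : ℕ) (s K : ℝ) (b : ℝ → ℝ) : Prop where
  meas : Measurable b
  nonneg : ∀ c, -1 ≤ c → c < 1 → 0 ≤ b c
  bound : ∀ c, -1 ≤ c → c < 1 → b c ≤ K * ((1 - c) / 2) ^ (-(((d : ℝ) - 1) / 2 + s))

/-- an integer vector -/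
noncomputable def lattice {d : ℕ} (n : Fin d → ℤ) : E d := WithLp.toLp 2 (fun i => (n i : ℝ))

/-- classical solutions on `[0,T)` of the Boltzmann equation on the torus, with rapid decay in the
velocity, locally uniformly in time -/
structure Solution {d : ℕ} (γ : ℝ) (b : ℝ → ℝ) (T : ℝ) (f : ℝ → E d → E d → ℝ) : Prop where
  nonneg : ∀ t ∈ Ico 0 T, ∀ x v, 0 ≤ f t x v
  periodic : ∀ t ∈ Ico 0 T, ∀ (n : Fin d → ℤ) (x v : E d), f t (x + lattice n) v = f t x v
  cont : ContinuousOn (fun p : ℝ × E d × E d => f p.1 p.2.1 p.2.2) (Ico 0 T ×ˢ univ)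
  decay : ∀ t₂ ∈ Ico 0 T, ∀ q : ℕ, ∃ C, ∀ t ∈ Icc 0 t₂, ∀ x v : E d, f t x v ≤ C * ((1 + ‖v‖) ^ q)⁻¹
  diff : ∀ t ∈ Ioo 0 T, ∀ x v : E d, DifferentiableAt ℝ (fun p : ℝ × E d => f p.1 p.2 v) (t, x)
  /-- `∂_t f + v · ∇_x f = lim_{ε → 0} Q_ε(f,f)` -/
  eqn : ∀ t ∈ Ioo 0 T, ∀ x v : E d, Tendsto (fun ε => cutQ γ b ε (f t x) v) (𝓝[>] 0)
    (𝓝 (fderiv ℝ (fun p : ℝ × E d => f p.1 p.2 v) (t, x) (1, v)))

/-- the mass density `ρ(t,x) = ∫ f dv` -/
noncomputable def mass {d : ℕ} (f : ℝ → E d → E d → ℝ) (t : ℝ) (x : E d) : ℝ := ∫ v, f t x v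

/-- the energy density `E(t,x) = ∫ f |v|² dv` -/
noncomputable def energy {d : ℕ} (f : ℝ → E d → E d → ℝ) (t : ℝ) (x : E d) : ℝ :=
  ∫ v, f t x v * ‖v‖ ^ 2

/-- the moment `∫ f |v|^p dv` of order `p`; the energy density is the case `p = 2` -/
noncomputable def moment {d : ℕ} (p : ℝ) (f : ℝ → E d → E d → ℝ) (t : ℝ) (x : E d) : ℝ :=
  ∫ v, f t x v * ‖v‖ ^ p

/-- `x` has distance less than `ε` from `x₀` on the torus -/
def Near {d : ℕ} (ε : ℝ) (x₀ x : E d) : Prop := ∃ n : Fin d → ℤ, ‖x - (x₀ + lattice n)‖ < ε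

/-- `f` develops an implosion singularity at the point `x₀` of the torus at time `T` -/
structure Implosion {d : ℕ} (T : ℝ) (f : ℝ → E d → E d → ℝ) (x₀ : E d) : Prop where
  mass_unbounded : ∀ B : ℝ, ∀ T' ∈ Ico 0 T, ∃ t ∈ Ico T' T, ∃ x, B < mass f t x
  energy_unbounded : ∀ B : ℝ, ∀ T' ∈ Ico 0 T, ∃ t ∈ Ico T' T, ∃ x, B < energy f t x
  away : ∀ ε > 0, ∃ B : ℝ, ∀ t ∈ Ico 0 T, ∀ x, ¬ Near ε x₀ x → mass f t x ≤ B ∧ energy f t x ≤ B

section conversion

open Pool.Agent.H821.BZ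

variable {d : ℕ}

lemma Angular.conv {s K : ℝ} {b : ℝ → ℝ} (h : Angular d s K b) : IsAng (((d : ℝ) - 1) / 2 + s) K b :=
  ⟨h.meas, h.nonneg, h.bound⟩

lemma Solution.conv {γ T : ℝ} {b : ℝ → ℝ} {f : ℝ → E d → E d → ℝ} (h : Solution γ b T f) : IsSol γ b T f :=
  ⟨h.nonneg, h.periodic, h.cont, h.decay, h.diff, h.eqn⟩

end conversion

theorem result : ∀ d : ℕ, 2 ≤ d → ∀ s γ K : ℝ, 0 < s → s < 1 → 0 ≤ γ → γ < 2 →
    ∀ b : ℝ → ℝ, Angular d s K b → ∀ (T : ℝ) (f : ℝ → E d → E d → ℝ), 0 < T → Solution γ b T f →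
    ∀ (p c g : ℝ) (r m : ℝ → ℝ), γ + 2 * s ≤ p → 0 < c → (∀ t ∈ Ico 0 T, c ≤ r t) →
      0 ≤ g → (0 < g ∨ ∀ t ∈ Ico 0 T, c * m t ^ d ≤ r t) →
      ContinuousOn m (Ico 0 T) → MonotoneOn m (Ico 0 T) → (∀ t ∈ Ico 0 T, 1 ≤ m t) →
      IntegrableOn (fun t => r t * m t ^ (γ + g)) (Ico 0 T) →
    ((∀ t ∈ Ico 0 T, ∀ x, mass f t x ≤ r t ∧ moment p f t x ≤ r t * m t ^ p) →
      ∀ q : ℕ, ∃ M : ℝ, ∀ t ∈ Ico 0 T, ∀ x v : E d, f t x v ≤ M * ((1 + ‖v‖) ^ q)⁻¹) ∧
    (∀ x₀ : E d, Implosion T f x₀ →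
      (2 < γ + 2 * s → ∀ ε > 0, ∃ B : ℝ, ∀ t ∈ Ico 0 T, ∀ x, ¬ Near ε x₀ x → moment p f t x ≤ B) →
      ∀ ε > 0, ∀ T' ∈ Ico 0 T, ∃ t ∈ Ico T' T, ∃ x,
        Near ε x₀ x ∧ (r t < mass f t x ∨ r t * m t ^ p < moment p f t x)) := by
  intro d hd s γ K hs hs1 hγ hγ2 b hb T f hT hsol p c g r m hp hc hr hg hg' hmc hmm hm1 hint
  have hb' := hb.conv
  have h := hsol.conv
  constructor
  · intro hbd q
    obtain ⟨M, _, hM⟩ := (Pool.Agent.H821.BL.critG hd hs hs1 hγ hγ2 hp hb' hT h hmc hmm hm1 hc hr hg hg' hint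
      (fun t ht x => (hbd t ht x).1) (fun t ht x => (hbd t ht x).2)).poly q
    exact ⟨M, hM⟩
  · intro x₀ hI hmo ε hε T' hT'
    by_contra hcon
    push Not at hcon
    obtain ⟨B, hB⟩ := hI.away ε hε
    have hreg : Pool.Agent.H821.BZ.Reg T f := by
      rcases le_or_gt (γ + 2 * s) 2 with hγs | hγs
      · exact Pool.Agent.H821.BL.critG_loc hd hs hs1 hγ hγs hp hb' hT h hmc hmm hm1 hc hr hg hg' hint
          (U := fun x => Near ε x₀ x) (B := B) hB hT' (fun t ht x hx => hcon t ht x hx)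
      · obtain ⟨B2, hB2⟩ := hmo hγs ε hε
        exact Pool.Agent.H821.BL.critG_loc' hd hs hs1 hγ hγ2 hp hb' hT h hmc hmm hm1 hc hr hg hg' hint
          (U := fun x => Near ε x₀ x) (B := max B B2)
          (fun t ht x hx => ⟨(hB t ht x hx).1.trans (le_max_left _ _),
            (hB2 t ht x hx).trans (le_max_right _ _)⟩) hT' (fun t ht x hx => hcon t ht x hx)
    obtain ⟨M, hM⟩ := hreg.hb h hT
    obtain ⟨t, ht, x, hx⟩ := hI.mass_unbounded M 0 ⟨le_rfl, hT⟩
    exact absurd (hM t ht x).1 (not_le.2 hx)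

end Pool.Agent.Results.MP_187b32_an.HardCollisionFrequency
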