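import Pool.Agent.H821.BL.Fin
import Pool.Agent.H43.KS.FinM

/-!
# Soft potentials: an implosion needs a non-integrable collision frequency

Non-cutoff Boltzmann equation on the torus, kernels `|v - v_*|^γ b(cos θ)` with
`-d < γ < 0`, any `0 < s < 1`, any dimension `d ≥ 2`.

(1) Let `r`, `ν` be continuous majorants of the mass density and of the collision frequency
`∫ f(w) |v-w|^γ dw` on `[0,T)`, and `μ ≥ 1` continuous and nondecreasing (a velocity scale).  If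
`∫_0^T (ν + μ^γ r + μ^(d+γ)) dt < ∞`, then all weighted sup norms of the solution stay bounded on
`[0,T)`; nothing is assumed on the energy density or on the supremum of `f`.  At an implosion point
the bound `ρ ≤ r` must therefore fail in every neighbourhood of the point.

(2) Let `r` and `Φ` be nondecreasing majorants of the mass density and of `f`.  The collision
frequency is at most `C r^(1+γ/d) Φ^(-γ/d)`; if this is integrable on `[0,T)`, the same conclusions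
hold.  For power rates `r = A (T-t)^(-α)`, `Φ = A (T-t)^(-ω)` the condition is
`(1 + γ/d) α - (γ/d) ω < 1`; for bounded solutions (as for the isentropic flows of the Euler limit)
`α < d/(d+γ)`.

Idea.  The barrier is `N(t) (1 + |v|²/(L μ(t))²)^(-n)`, where `n` and then the constant `L` are
chosen large.  At a touching point the collision operator is at most the barrier times
`C (∫ f(w) |v-w|^γ dw + (Lμ)^γ ∫ f(w) (1+|w|/(Lμ))² dw)`; for `γ < 0` the factor `L^γ` makes the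
second term harmless, the large velocities being controlled by the barrier itself.
-/

set_option autoImplicit false
open MeasureTheory Metric Set Filter Topology
open scoped ENNReal Real InnerProductSpace

namespace Pool.Agent.Results.MP_187b32_an.SoftCollisionFrequency

/-- the space of positions and of velocities -/
abbrev E (d : ℕ) := EuclideanSpace ℝ (Fin d)

/-- the unit sphere -/
abbrev S (d : ℕ) := sphere (0 : E d) 1

/-- the surface measure of the unit sphere -/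
noncomputable abbrev surf (d : ℕ) : Measure (S d) := (volume : Measure (E d)).toSphere

/-- the velocity `v'` after the collision -/
noncomputable def post {d : ℕ} (v w σ : E d) : E d := (1/2:ℝ) • (v + w) + (‖v - w‖ / 2) • σ

/-- the velocity `v'_*` after the collision -/
noncomputable def postStar {d : ℕ} (v w σ : E d) : E d := (1/2:ℝ) • (v + w) - (‖v - w‖ / 2) • σ

/-- the cosine of the deviation angle, `(v' - v'_*) · (v - v_*) / |v - v_*|²` -/
noncomputable def cosTheta {d : ℕ} (v w σ : E d) : ℝ :=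
  ⟪post v w σ - postStar v w σ, v - w⟫_ℝ / ‖v - w‖ ^ 2

/-- the collision operator `Q(g,g)(v)` for the kernel `|v - v_*|^γ b(cos θ)`, where the collisions
with `cos θ > 1 - ε` are removed -/
noncomputable def cutQ {d : ℕ} (γ : ℝ) (b : ℝ → ℝ) (ε : ℝ) (g : E d → ℝ) (v : E d) : ℝ :=
  ∫ w : E d, ∫ σ : S d, (if cosTheta v w σ ≤ 1 - ε then
    (g (postStar v w σ) * g (post v w σ) - g w * g v) * (‖v - w‖ ^ γ * b (cosTheta v w σ)) else 0) ∂(surf d)

/-- the angular part of the kernel: `0 ≤ b(cos θ) ≤ K |sin (θ/2)|^(-(d-1)-2s)`;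
note that `sin² (θ/2) = (1 - cos θ)/2` -/
structure Angular (d : ℕ) (s K : ℝ) (b : ℝ → ℝ) : Prop where
  meas : Measurable b
  nonneg : ∀ c, -1 ≤ c → c < 1 → 0 ≤ b c
  bound : ∀ c, -1 ≤ c → c < 1 → b c ≤ K * ((1 - c) / 2) ^ (-(((d : ℝ) - 1) / 2 + s))

/-- an integer vector -/
noncomputable def lattice {d : ℕ} (n : Fin d → ℤ) : E d := WithLp.toLp 2 (fun i => (n i : ℝ))

/-- classical solutions on `[0,T)` of the Boltzmann equation on the torus, with rapid decay in the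
velocity, locally uniformly in time -/
structure Solution {d : ℕ} (γ : ℝ) (b : ℝ → ℝ) (T : ℝ) (f : ℝ → E d → E d → ℝ) : Prop where
  nonneg : ∀ t ∈ Ico 0 T, ∀ x v, 0 ≤ f t x v
  periodic : ∀ t ∈ Ico 0 T, ∀ (n : Fin d → ℤ) (x v : E d), f t (x + lattice n) v = f t x v
  cont : ContinuousOn (fun p : ℝ × E d × E d => f p.1 p.2.1 p.2.2) (Ico 0 T ×ˢ univ)
  decay : ∀ t₂ ∈ Ico 0 T, ∀ q : ℕ, ∃ C, ∀ t ∈ Icc 0 t₂, ∀ x v : E d, f t x v ≤ C * ((1 + ‖v‖) ^ q)⁻¹
  diff : ∀ t ∈ Ioo 0 T, ∀ x v : E d, DifferentiableAt ℝ (fun p : ℝ × E d => f p.1 p.2 v) (t, x)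
  /-- `∂_t f + v · ∇_x f = lim_{ε → 0} Q_ε(f,f)` -/
  eqn : ∀ t ∈ Ioo 0 T, ∀ x v : E d, Tendsto (fun ε => cutQ γ b ε (f t x) v) (𝓝[>] 0)
    (𝓝 (fderiv ℝ (fun p : ℝ × E d => f p.1 p.2 v) (t, x) (1, v)))

/-- the mass density `ρ(t,x) = ∫ f dv` -/
noncomputable def mass {d : ℕ} (f : ℝ → E d → E d → ℝ) (t : ℝ) (x : E d) : ℝ := ∫ v, f t x v

/-- the energy density `E(t,x) = ∫ f |v|² dv` -/
noncomputable def energy {d : ℕ} (f : ℝ → E d → E d → ℝ) (t : ℝ) (x : E d) : ℝ :=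
  ∫ v, f t x v * ‖v‖ ^ 2

/-- `x` has distance less than `ε` from `x₀` on the torus -/
def Near {d : ℕ} (ε : ℝ) (x₀ x : E d) : Prop := ∃ n : Fin d → ℤ, ‖x - (x₀ + lattice n)‖ < ε

/-- `f` develops an implosion singularity at the point `x₀` of the torus at time `T` -/
structure Implosion {d : ℕ} (T : ℝ) (f : ℝ → E d → E d → ℝ) (x₀ : E d) : Prop where
  mass_unbounded : ∀ B : ℝ, ∀ T' ∈ Ico 0 T, ∃ t ∈ Ico T' T, ∃ x, B < mass f t x
  energy_unbounded : ∀ B : ℝ, ∀ T' ∈ Ico 0 T, ∃ t ∈ Ico T' T, ∃ x, B < energy f t x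
  away : ∀ ε > 0, ∃ B : ℝ, ∀ t ∈ Ico 0 T, ∀ x, ¬ Near ε x₀ x → mass f t x ≤ B ∧ energy f t x ≤ B

section conversion

open Pool.Agent.H821.BZ

variable {d : ℕ}

lemma Angular.conv {s K : ℝ} {b : ℝ → ℝ} (h : Angular d s K b) : IsAng (((d : ℝ) - 1) / 2 + s) K b :=
  ⟨h.meas, h.nonneg, h.bound⟩

lemma Solution.conv {γ T : ℝ} {b : ℝ → ℝ} {f : ℝ → E d → E d → ℝ} (h : Solution γ b T f) : IsSol γ b T f :=
  ⟨h.nonneg, h.periodic, h.cont, h.decay, h.diff, h.eqn⟩

end conversion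

/-- weighted bounds exclude an implosion -/
theorem no_implosion {d : ℕ} {T : ℝ} {f : ℝ → E d → E d → ℝ} {x₀ : E d} (hI : Implosion T f x₀) (hT : 0 < T)
    (hnn : ∀ t ∈ Ico 0 T, ∀ x v, 0 ≤ f t x v)
    (hreg : ∀ q : ℕ, ∃ M : ℝ, ∀ t ∈ Ico 0 T, ∀ x v : E d, f t x v ≤ M * ((1 + ‖v‖) ^ q)⁻¹) : False := by
  obtain ⟨M2, hM2⟩ := hreg (2 * (d + 3))
  obtain ⟨P, hP, hPb⟩ := Pool.Agent.H821.BZ.hydro_le (d := d) (N := d + 3)
    (by push_cast; linarith [(by positivity : (0:ℝ) ≤ d)])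
  obtain ⟨t, ht, x, hx⟩ := hI.mass_unbounded (P * |M2|) 0 ⟨le_rfl, hT⟩
  have h1 := (hPb (f t x) |M2| (abs_nonneg _) (hnn t ht x) fun w => by
    calc f t x w ≤ M2 * ((1 + ‖w‖) ^ (2 * (d + 3)))⁻¹ := hM2 t ht x w
      _ ≤ |M2| * ((1 + ‖w‖) ^ (2 * (d + 3)))⁻¹ := mul_le_mul_of_nonneg_right (le_abs_self _) (by positivity)
      _ ≤ |M2| * Pool.Agent.H821.BZ.φ (d + 3) w :=
          mul_le_mul_of_nonneg_left (Pool.Agent.H821.BZ.φ_lower (d + 3) w) (abs_nonneg _)).1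
  exact absurd h1 (not_le.2 hx)

/-- a bound of the mass density near `x₀` and late gives a bound everywhere -/
theorem spread {d : ℕ} {T : ℝ} {f : ℝ → E d → E d → ℝ} {x₀ : E d} (hI : Implosion T f x₀)
    (hR : Pool.Agent.H821.BL.IsReg T f) {ε : ℝ} (hε : 0 < ε) {T' : ℝ} (hT' : T' ∈ Ico 0 T) {r : ℝ → ℝ}
    (hcon : ∀ t ∈ Ico T' T, ∀ x, Near ε x₀ x → mass f t x ≤ r t) (hr : ∃ c : ℝ, ∀ t ∈ Ico 0 T, c ≤ r t) :
    ∃ B' : ℝ, 0 ≤ B' ∧ ∀ t ∈ Ico 0 T, ∀ x, mass f t x ≤ r t + B' := by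
  obtain ⟨B, hB⟩ := hI.away ε hε
  obtain ⟨M, hM, hMb⟩ := hR.bdd hT'
  obtain ⟨c, hc⟩ := hr
  refine ⟨|B| + M + |c|, by positivity, fun t ht x => ?_⟩
  have h1 := hc t ht
  have h2 := neg_abs_le c
  have h6 := abs_nonneg B
  rcases le_total t T' with h3 | h3
  · have h4 : mass f t x ≤ M := (hMb t ⟨ht.1, h3⟩ x).1
    linarith
  · by_cases hx : Near ε x₀ x
    · have := hcon t ⟨h3, ht.2⟩ x hx
      have := abs_nonneg c
      linarith
    · have h4 := (hB t ht x hx).1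
      have h5 := le_abs_self B
      linarith

theorem result : ∀ d : ℕ, 2 ≤ d → ∀ s γ K : ℝ, 0 < s → s < 1 → -(d : ℝ) < γ → γ < 0 →
    ∀ b : ℝ → ℝ, Angular d s K b → ∀ (T : ℝ) (f : ℝ → E d → E d → ℝ), 0 < T → Solution γ b T f →
    -- (1) majorants of the mass density and of the collision frequency, velocity scale `μ`
    (∀ r ν μ : ℝ → ℝ, ContinuousOn r (Ico 0 T) → ContinuousOn ν (Ico 0 T) →
      ContinuousOn μ (Ico 0 T) → MonotoneOn μ (Ico 0 T) → (∀ t ∈ Ico 0 T, 1 ≤ μ t) →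
      (∀ t ∈ Ico 0 T, 0 ≤ r t) →
      IntegrableOn (fun t => ν t + μ t ^ γ * r t + μ t ^ (γ + d)) (Ico 0 T) →
      (∀ t ∈ Ico 0 T, ∀ x v, ∫ w, f t x w * ‖v - w‖ ^ γ ≤ ν t) →
      ((∀ t ∈ Ico 0 T, ∀ x, mass f t x ≤ r t) →
        ∀ q : ℕ, ∃ M : ℝ, ∀ t ∈ Ico 0 T, ∀ x v : E d, f t x v ≤ M * ((1 + ‖v‖) ^ q)⁻¹) ∧
      (∀ x₀ : E d, Implosion T f x₀ → ∀ ε > 0, ∀ T' ∈ Ico 0 T,
        ∃ t ∈ Ico T' T, ∃ x, Near ε x₀ x ∧ r t < mass f t x)) ∧
    -- (2) nondecreasing majorants of the mass density and of `f`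
    (∀ r Φ : ℝ → ℝ, ContinuousOn r (Ico 0 T) → ContinuousOn Φ (Ico 0 T) →
      MonotoneOn r (Ico 0 T) → MonotoneOn Φ (Ico 0 T) → 0 < r 0 → 0 < Φ 0 →
      IntegrableOn (fun t => r t ^ (1 + γ / d) * Φ t ^ (-γ / d)) (Ico 0 T) →
      (∀ t ∈ Ico 0 T, ∀ x v, f t x v ≤ Φ t) →
      ((∀ t ∈ Ico 0 T, ∀ x, mass f t x ≤ r t) →
        ∀ q : ℕ, ∃ M : ℝ, ∀ t ∈ Ico 0 T, ∀ x v : E d, f t x v ≤ M * ((1 + ‖v‖) ^ q)⁻¹) ∧
      (∀ x₀ : E d, Implosion T f x₀ → ∀ ε > 0, ∀ T' ∈ Ico 0 T,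
        ∃ t ∈ Ico T' T, ∃ x, Near ε x₀ x ∧ r t < mass f t x)) := by
  intro d hd s γ K hs hs1 hγd hγ b hb T f hT hsol
  have hγd' : 0 < (d:ℝ) + γ := by linarith
  have h := hsol.conv
  have hR := h.isReg
  have hK : Pool.Agent.H43.KS.Kin T f := ⟨hR.nonneg, hR.periodic, hR.cont, hR.decay, hR.diff⟩
  have htouch : ∀ N : ℕ, (d : ℝ) + 6 ≤ 2 * N → ∃ C : ℝ, 0 ≤ C ∧ Pool.Agent.H43.KS.Touch C γ N T f := by
    intro N hN
    obtain ⟨C, hC, hCt⟩ := Pool.Agent.H821.BL.touchEv_boltz hd hs hs1 hγ hγd' hb.conv h N hN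
    refine ⟨C, hC, fun t ht x v m μ hμ hle hv => ?_⟩
    have h1 := hCt t ht x v m μ hμ hle hv
    rwa [min_eq_left hγ.le, max_eq_right hγ.le, zero_add] at h1
  have h0T : (0 : ℝ) ∈ Ico 0 T := ⟨le_rfl, hT⟩
  constructor
  · intro r ν μ hrc hνc hμc hμm hμ1 hr0 hW hν
    refine ⟨fun hρ q => Pool.Agent.H43.KS.critM' hd hγd hγ hT hK htouch hrc hνc hμc hμm hμ1 hW
      (fun t ht x => ⟨hρ t ht x, hν t ht x⟩) q, ?_⟩
    intro x₀ hI ε hε T' hT'
    by_contra hcon
    push Not at hcon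
    obtain ⟨B', hB', hmass⟩ := spread hI hR hε hT' hcon ⟨0, hr0⟩
    refine no_implosion hI hT hR.nonneg fun q => ?_
    have hμγ : IntegrableOn (fun t => B' * μ t ^ γ) (Ico 0 T) := by
      refine Integrable.mono' (integrableOn_const (C := B') (by simp : volume (Ico 0 T) ≠ ⊤)) ?_ ?_
      · refine ContinuousOn.aestronglyMeasurable ?_ measurableSet_Ico
        exact continuousOn_const.mul (hμc.rpow_const fun t ht => Or.inl (by
          have := hμ1 t ht; linarith : μ t ≠ 0))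
      · refine (ae_restrict_iff' measurableSet_Ico).2 (Eventually.of_forall fun t ht => ?_)
        have g1 := hμ1 t ht
        have g2 : μ t ^ γ ≤ 1 := Real.rpow_le_one_of_one_le_of_nonpos g1 hγ.le
        have g3 : 0 ≤ μ t ^ γ := Real.rpow_nonneg (by linarith) _
        rw [Real.norm_eq_abs, abs_of_nonneg (by positivity)]
        exact mul_le_of_le_one_right hB' g2
    refine Pool.Agent.H43.KS.critM' hd hγd hγ hT hK htouch (r := fun t => r t + B') (hrc.add continuousOn_const)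
      hνc hμc hμm hμ1 ?_ (fun t ht x => ⟨hmass t ht x, hν t ht x⟩) q
    refine (hW.add hμγ).congr_fun (fun t _ => ?_) measurableSet_Ico
    simp only [Pi.add_apply]; ring
  · intro r Φ hrc hΦc hrm hΦm hr0 hΦ0 hint hΦ
    refine ⟨fun hρ q => Pool.Agent.H43.KS.crit' hd hγd hγ hT hK htouch hrc hΦc hrm hΦm hr0 hΦ0 hint
      (fun t ht x => ⟨hρ t ht x, hΦ t ht x⟩) q, ?_⟩
    intro x₀ hI ε hε T' hT'
    by_contra hcon
    push Not at hcon
    have hrp : ∀ t ∈ Ico 0 T, r 0 ≤ r t := fun t ht => hrm h0T ht ht.1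
    have hΦp : ∀ t ∈ Ico 0 T, Φ 0 ≤ Φ t := fun t ht => hΦm h0T ht ht.1
    obtain ⟨B', hB', hmass⟩ := spread hI hR hε hT' hcon ⟨r 0, hrp⟩
    refine no_implosion hI hT hR.nonneg fun q => ?_
    have hθ : 0 ≤ 1 + γ / d := by
      have hd0 : (0:ℝ) < d := by
        have : (2:ℝ) ≤ d := by exact_mod_cast hd
        linarith
      have : 1 + γ / d = (d + γ) / d := by field_simp
      rw [this]; positivity
    refine Pool.Agent.H43.KS.crit' hd hγd hγ hT hK htouch (r := fun t => r t + B') (Φ := Φ)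
      (hrc.add continuousOn_const) hΦc
      (fun t ht t' ht' htt => by have := hrm ht ht' htt; simp only; linarith) hΦm (by linarith) hΦ0
      ?_ (fun t ht x => ⟨hmass t ht x, hΦ t ht x⟩) q
    refine Integrable.mono' (hint.const_mul ((1 + B' / r 0) ^ (1 + γ / d))) ?_ ?_
    · refine ContinuousOn.aestronglyMeasurable ?_ measurableSet_Ico
      refine ContinuousOn.mul ?_ ?_
      · exact (hrc.add continuousOn_const).rpow_const fun t ht => Or.inl (by
          have := hrp t ht; linarith : r t + B' ≠ 0)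
      · exact hΦc.rpow_const fun t ht => Or.inl (by have := hΦp t ht; linarith : Φ t ≠ 0)
    · refine (ae_restrict_iff' measurableSet_Ico).2 (Eventually.of_forall fun t ht => ?_)
      have g1 := hrp t ht
      have g2 := hΦp t ht
      have g3 : 0 < r t := hr0.trans_le g1
      have g4 : 0 < Φ t := hΦ0.trans_le g2
      have g5 : r t + B' ≤ (1 + B' / r 0) * r t := by
        have : B' ≤ B' / r 0 * r t := by
          rw [div_mul_eq_mul_div, le_div_iff₀ hr0]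
          exact mul_le_mul_of_nonneg_left g1 hB'
        linarith
      rw [Real.norm_eq_abs, abs_of_nonneg (by positivity)]
      calc (r t + B') ^ (1 + γ / d) * Φ t ^ (-γ / d)
          ≤ ((1 + B' / r 0) * r t) ^ (1 + γ / d) * Φ t ^ (-γ / d) := by
            refine mul_le_mul_of_nonneg_right (Real.rpow_le_rpow (by positivity) g5 hθ) (by positivity)
        _ = _ := by
            rw [Real.mul_rpow (by positivity) g3.le]; ring

end Pool.Agent.Results.MP_187b32_an.SoftCollisionFrequency
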